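import Pool.Agent.D0H44.MW.Stm
import Pool.Agent.H370R2.Digamma

/-! Package P3 of the project MW: the logarithmic derivative of `Gammaℝ`. -/

set_option autoImplicit false

namespace Pool.Agent.D0H13.MW

open Complex

theorem dig_bd : ∃ C : ℝ, 0 < C ∧ ∀ z : ℂ, 1 / 8 ≤ z.re → z.re ≤ 1 →
    ‖logDeriv Gamma z‖ ≤ C + |z.im| := by
  refine ⟨8 + 1 + (∑' n : ℕ, 1 / ((n : ℝ) + 1) ^ 2) + 4 + 4, ?_, fun z hz hz1 => ?_⟩
  · have : 0 ≤ ∑' n : ℕ, 1 / ((n : ℝ) + 1) ^ 2 := tsum_nonneg fun n => by positivity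
    positivity
  have hσ : 0 < z.re := by linarith
  have b1 : ‖1 / z‖ ≤ 8 := by
    rw [norm_div, norm_one]
    have := one_div_le_one_div_of_le (by norm_num : (0:ℝ) < 1 / 8) (hz.trans (re_le_norm z))
    linarith
  have b2 : ‖1 / (z + 1)‖ ≤ 1 := by
    have h := re_le_norm (z + 1)
    simp only [add_re, one_re] at h
    rw [norm_div, norm_one, div_le_iff₀ (by linarith)]
    linarith
  have b3 := H370.DG.norm_tsum_er hσ
  have b4 : ‖log (z + 2)‖ ≤ 4 + 4 + |z.im| := by
    have hn1 : 1 ≤ ‖z + 2‖ := by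
      have h3 := re_le_norm (z + 2)
      rw [add_re, re_ofNat] at h3
      linarith
    have hn2 : ‖z + 2‖ ≤ 3 + |z.im| := by
      refine (norm_le_abs_re_add_abs_im _).trans ?_
      simp only [add_re, re_ofNat, add_im, im_ofNat, add_zero]
      rw [abs_of_nonneg (by linarith)]
      linarith
    refine (norm_le_abs_re_add_abs_im _).trans ?_
    rw [log_re, log_im, abs_of_nonneg (Real.log_nonneg hn1)]
    have h1 := Complex.abs_arg_le_pi (z + 2)
    have h2 := Real.pi_le_four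
    have h3 := Real.log_le_sub_one_of_pos (by linarith : 0 < ‖z + 2‖)
    linarith
  have e : logDeriv Gamma z = -(1 / z) - 1 / (z + 1) + (log (z + 2) + ∑' n, H370.DG.er n z) := by
    rw [H370.DG.logDeriv_Gamma' hσ]
    ring
  rw [e]
  have h5 := norm_add_le (-(1 / z) - 1 / (z + 1)) (log (z + 2) + ∑' n, H370.DG.er n z)
  have h6 := norm_sub_le (-(1 / z)) (1 / (z + 1))
  have h7 := norm_add_le (log (z + 2)) (∑' n, H370.DG.er n z)
  rw [norm_neg] at h6
  linarith

theorem dg : Pool.Agent.D0H44.MW.S_DG := by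
  obtain ⟨C, hC, h⟩ := dig_bd
  refine ⟨|Real.log Real.pi| + C + 1, by positivity, fun s h1 h2 => ?_⟩
  have hpi : (Real.pi : ℂ) ≠ 0 := by exact_mod_cast Real.pi_ne_zero
  have hre : (s / 2).re = s.re / 2 := by
    rw [show (2 : ℂ) = ((2 : ℝ) : ℂ) by norm_num, Complex.div_ofReal_re]
  have him : (s / 2).im = s.im / 2 := by
    rw [show (2 : ℂ) = ((2 : ℝ) : ℂ) by norm_num, Complex.div_ofReal_im]
  have hG : Gamma (s / 2) ≠ 0 := Gamma_ne_zero_of_re_pos (by rw [hre]; linarith)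
  have hdG : DifferentiableAt ℂ Gamma (s / 2) := by
    apply differentiableAt_Gamma
    intro m hm
    have := congrArg Complex.re hm
    rw [hre] at this
    simp only [neg_re, natCast_re] at this
    have : (0 : ℝ) ≤ m := Nat.cast_nonneg m
    linarith
  have hd : HasDerivAt Gammaℝ
      (((Real.pi : ℂ) ^ (-s / 2) * log (Real.pi : ℂ) * (-1 / 2)) * Gamma (s / 2) +
        (Real.pi : ℂ) ^ (-s / 2) * (deriv Gamma (s / 2) * (1 / 2))) s := by
    have e1 : HasDerivAt (fun s : ℂ => -s / 2) (-1 / 2) s := by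
      have := ((hasDerivAt_id s).neg).div_const 2
      simpa using this
    have e2 : HasDerivAt (fun s : ℂ => (Real.pi : ℂ) ^ (-s / 2))
        ((Real.pi : ℂ) ^ (-s / 2) * log (Real.pi : ℂ) * (-1 / 2)) s :=
      e1.const_cpow (Or.inl hpi)
    have e3 : HasDerivAt (fun s : ℂ => s / 2) (1 / 2) s := (hasDerivAt_id s).div_const 2
    have e4 : HasDerivAt (fun s : ℂ => Gamma (s / 2)) (deriv Gamma (s / 2) * (1 / 2)) s :=
      HasDerivAt.comp s (h₂ := Gamma) (h := fun s : ℂ => s / 2) hdG.hasDerivAt e3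
    have e5 := e2.mul e4
    have e6 : Gammaℝ = fun s : ℂ => (Real.pi : ℂ) ^ (-s / 2) * Gamma (s / 2) := by
      funext s; rw [Gammaℝ_def]
    rw [e6]
    exact e5
  have hval : deriv Gammaℝ s = (-(log (Real.pi : ℂ)) / 2 + logDeriv Gamma (s / 2) / 2) * Gammaℝ s := by
    rw [hd.deriv, Gammaℝ_def, logDeriv_apply]
    field_simp
  rw [hval, norm_mul]
  apply mul_le_mul_of_nonneg_right _ (norm_nonneg _)
  have h3 := h (s / 2) (by rw [hre]; linarith) (by rw [hre]; linarith)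
  rw [him, abs_div, abs_two] at h3
  have h4 := norm_add_le (-(log (Real.pi : ℂ)) / 2) (logDeriv Gamma (s / 2) / 2)
  have h5 : ‖-(log (Real.pi : ℂ)) / 2‖ = |Real.log Real.pi| / 2 := by
    rw [norm_div, norm_neg, ← Complex.ofReal_log Real.pi_pos.le, Complex.norm_real, Real.norm_eq_abs]
    norm_num
  have h6 : ‖logDeriv Gamma (s / 2) / 2‖ = ‖logDeriv Gamma (s / 2)‖ / 2 := by
    rw [norm_div]; norm_num
  rw [h5, h6] at h4
  have h7 := abs_nonneg (Real.log Real.pi)
  have h8 := abs_nonneg s.im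
  nlinarith [mul_nonneg h7 h8, mul_nonneg hC.le h8]

end Pool.Agent.D0H13.MW
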