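import Pool.Agent.D0H44.MW.Stm
import Pool.Agent.W557.SDSPhi

/-! Package P7 of the project MW: `∑_{k ≤ y} k / φ(k)² ≪ 1 + log y`. -/

set_option autoImplicit false

namespace Pool.Agent.D0H13.MW

open Finset

theorem phi : Pool.Agent.D0H44.MW.S_PHI := by
  obtain ⟨C, hC, h⟩ := Pool.Agent.W557.SDSPhi.sphi
  have key : ∀ y : ℕ, 1 ≤ y →
      ∑ k ∈ Finset.Icc 1 y, (k : ℝ) / (Nat.totient k : ℝ) ^ 2 ≤ (8 * C + 3) * (1 + Real.log y) := by
    intro y
    induction y using Nat.strong_induction_on with
    | _ y ih =>
      intro hy
      have hy1 : (1 : ℝ) ≤ y := by exact_mod_cast hy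
      have hlog : 0 ≤ Real.log y := Real.log_nonneg hy1
      rcases Nat.lt_or_ge y 3 with h3 | h3
      · have h4 : ∑ k ∈ Finset.Icc 1 y, (k : ℝ) / (Nat.totient k : ℝ) ^ 2 ≤ 3 := by
          interval_cases y
          · simp
          · rw [show Finset.Icc 1 2 = {1, 2} from rfl]
            rw [Finset.sum_pair (by norm_num)]
            norm_num
        nlinarith
      · set m := Nat.sqrt y with hm
        have hm1 : 1 ≤ m := by
          rw [hm, Nat.le_sqrt]; omega
        have hmy : m < y := Nat.sqrt_lt_self (by omega)
        have h5 := ih m hmy hm1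
        have hm0 : (0 : ℝ) < m := by exact_mod_cast hm1
        have hml : Real.log m ≤ Real.log y / 2 := by
          have h6 : ((m : ℝ)) ^ 2 ≤ y := by
            have := Nat.sqrt_le' y
            rw [← hm] at this
            exact_mod_cast this
          have h7 := Real.log_le_log (by positivity) h6
          rw [Real.log_pow] at h7
          push_cast at h7
          linarith
        have hsplit : ∑ k ∈ Finset.Icc 1 y, (k : ℝ) / (Nat.totient k : ℝ) ^ 2 =
            ∑ k ∈ Finset.Icc 1 m, (k : ℝ) / (Nat.totient k : ℝ) ^ 2 +
              ∑ k ∈ Finset.Icc (m + 1) y, (k : ℝ) / (Nat.totient k : ℝ) ^ 2 := by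
          rw [← Finset.sum_union]
          · congr 1
            ext k
            simp only [Finset.mem_Icc, Finset.mem_union]
            omega
          · rw [Finset.disjoint_left]
            intro k hk hk'
            simp only [Finset.mem_Icc] at hk hk'
            omega
        have h8 : (1 + Real.log y) / 2 *
            ∑ k ∈ Finset.Icc (m + 1) y, (k : ℝ) / (Nat.totient k : ℝ) ^ 2 ≤ C * (1 + Real.log y) ^ 2 := by
          refine le_trans ?_ (h y hy)
          rw [Finset.mul_sum]
          refine le_trans ?_ (Finset.sum_le_sum_of_subset_of_nonneg (s := Finset.Icc (m + 1) y) ?_ ?_)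
          · refine Finset.sum_le_sum fun k hk => ?_
            simp only [Finset.mem_Icc] at hk
            have hk1 : (1 : ℝ) ≤ k := by exact_mod_cast (by omega : 1 ≤ k)
            have h9 : Real.log y / 2 ≤ Real.log k := by
              have h10 : y < (m + 1) ^ 2 := by
                have := Nat.lt_succ_sqrt' y
                rw [← hm] at this
                exact this
              have h11 : (y : ℝ) ≤ (k : ℝ) ^ 2 := by
                have h12 : (m + 1) ^ 2 ≤ k ^ 2 := Nat.pow_le_pow_left hk.1 2
                exact_mod_cast (h10.le.trans h12)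
              have h13 := Real.log_le_log (by positivity) h11
              rw [Real.log_pow] at h13
              push_cast at h13
              linarith
            have h14 : 0 ≤ (k : ℝ) / (Nat.totient k : ℝ) ^ 2 := by positivity
            calc (1 + Real.log y) / 2 * ((k : ℝ) / (Nat.totient k : ℝ) ^ 2)
                ≤ (1 + Real.log k) * ((k : ℝ) / (Nat.totient k : ℝ) ^ 2) := by
                  apply mul_le_mul_of_nonneg_right _ h14
                  linarith
              _ = (k : ℝ) * (1 + Real.log k) / (Nat.totient k : ℝ) ^ 2 := by ring
          · intro k hk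
            simp only [Finset.mem_Icc] at hk ⊢
            omega
          · intro k hk _
            simp only [Finset.mem_Icc] at hk
            have hk1 : (1 : ℝ) ≤ k := by exact_mod_cast hk.1
            have := Real.log_nonneg hk1
            positivity
        have h15 : ∑ k ∈ Finset.Icc (m + 1) y, (k : ℝ) / (Nat.totient k : ℝ) ^ 2 ≤
            2 * C * (1 + Real.log y) := by
          have h16 : 0 < (1 + Real.log y) / 2 := by linarith
          have h17 : (1 + Real.log y) / 2 *
            ∑ k ∈ Finset.Icc (m + 1) y, (k : ℝ) / (Nat.totient k : ℝ) ^ 2 ≤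
              (1 + Real.log y) / 2 * (2 * C * (1 + Real.log y)) := by
            refine h8.trans (le_of_eq ?_); ring
          exact le_of_mul_le_mul_left h17 h16
        have h18 : 1 ≤ Real.log y := by
          rw [Real.le_log_iff_exp_le (by linarith)]
          have h19 : (3 : ℝ) ≤ y := by exact_mod_cast h3
          have := Real.exp_one_lt_d9
          linarith
        rw [hsplit]
        nlinarith
  exact ⟨8 * C + 3, by positivity, key⟩

end Pool.Agent.D0H13.MW
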