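import Pool.Agent.D0H44.MW.Stm

/-! Package P5 of the project MW: Dirichlet polynomials over a window against the summatory
function. -/

set_option autoImplicit false
open Complex Filter Topology MeasureTheory Set FourierTransform
open scoped ENNReal

namespace Pool.Agent.D0H13.MW

open Pool.Agent.D0H44.MW (gg gg_norm mell_eq)

/-- Parseval's formula for the Mellin transform of a measurable function. -/
theorem mell_L2' {F : ℝ → ℂ} {σ : ℝ} (g1 : Integrable (gg F σ))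
    (gsq : Integrable (fun u => ‖gg F σ u‖ ^ 2)) :
    Integrable (fun t : ℝ => ‖mellin F ((σ : ℂ) + (t : ℂ) * I)‖ ^ 2) ∧
    ∫ t : ℝ, ‖mellin F ((σ : ℂ) + (t : ℂ) * I)‖ ^ 2 =
      2 * Real.pi * ∫ x in Ioi (0 : ℝ), ‖F x‖ ^ 2 * x ^ (2 * σ - 1) := by
  have g2 : MemLp (gg F σ) 2 :=
    (memLp_two_iff_integrable_sq_norm g1.aestronglyMeasurable).mpr gsq
  have hpl := Pool.Agent.Helper76.NormalHP.plancherel_lintegral (gg F σ) g1 g2
  have hcont : Continuous (𝓕 (gg F σ)) :=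
    VectorFourier.fourierIntegral_continuous Real.continuous_fourierChar
      (innerSL ℝ).continuous₂ g1
  have hfin : ∫⁻ u, ‖gg F σ u‖ₑ ^ 2 = ENNReal.ofReal (∫ u, ‖gg F σ u‖ ^ 2) := by
    rw [ofReal_integral_eq_lintegral_ofReal gsq (by filter_upwards with u; positivity)]
    refine lintegral_congr fun u => ?_
    rw [ENNReal.ofReal_pow (norm_nonneg _), ofReal_norm]
  have hFint : Integrable (fun ξ => ‖𝓕 (gg F σ) ξ‖ ^ 2) := by
    refine ⟨(hcont.norm.pow 2).aestronglyMeasurable, ?_⟩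
    rw [hasFiniteIntegral_iff_ofReal (by filter_upwards with u; positivity)]
    have : ∫⁻ a, ENNReal.ofReal (‖𝓕 (gg F σ) a‖ ^ 2) = ∫⁻ ξ, ‖𝓕 (gg F σ) ξ‖ₑ ^ 2 := by
      refine lintegral_congr fun u => ?_
      rw [ENNReal.ofReal_pow (norm_nonneg _), ofReal_norm]
    rw [this, hpl, hfin]
    exact ENNReal.ofReal_lt_top
  have hFeq : ∫ ξ, ‖𝓕 (gg F σ) ξ‖ ^ 2 = ∫ u, ‖gg F σ u‖ ^ 2 := by
    have h3 : ∫⁻ ξ, ‖𝓕 (gg F σ) ξ‖ₑ ^ 2 = ENNReal.ofReal (∫ u, ‖𝓕 (gg F σ) u‖ ^ 2) := by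
      rw [ofReal_integral_eq_lintegral_ofReal hFint (by filter_upwards with u; positivity)]
      refine lintegral_congr fun u => ?_
      rw [ENNReal.ofReal_pow (norm_nonneg _), ofReal_norm]
    rw [h3, hfin] at hpl
    exact (ENNReal.ofReal_eq_ofReal_iff (integral_nonneg fun _ => by positivity)
      (integral_nonneg fun _ => by positivity)).mp hpl
  have hR : ∫ x in Ioi (0 : ℝ), ‖F x‖ ^ 2 * x ^ (2 * σ - 1) = ∫ u, ‖gg F σ u‖ ^ 2 := by
    have h := mellin_eq_fourier (fun x => ((‖F x‖ ^ 2 : ℝ) : ℂ)) (s := ((2 * σ : ℝ) : ℂ))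
    rw [ofReal_re, ofReal_im, zero_div, mellin, Real.fourier_eq] at h
    simp only [inner_zero_right, neg_zero, AddChar.map_zero_eq_one, one_smul] at h
    have e1 : ∫ t in Ioi (0:ℝ), (t : ℂ) ^ (((2 * σ : ℝ) : ℂ) - 1) • ((‖F t‖ ^ 2 : ℝ) : ℂ) =
        ((∫ x in Ioi (0 : ℝ), ‖F x‖ ^ 2 * x ^ (2 * σ - 1) : ℝ) : ℂ) := by
      rw [← integral_complex_ofReal]
      refine setIntegral_congr_fun measurableSet_Ioi ?_
      intro x hx
      have hx0 : (0:ℝ) ≤ x := le_of_lt hx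
      have h5 : (x : ℂ) ^ (((2 * σ : ℝ) : ℂ) - 1) = ((x ^ (2 * σ - 1) : ℝ) : ℂ) := by
        rw [ofReal_cpow hx0]; push_cast; rfl
      simp only [smul_eq_mul]
      rw [h5]
      push_cast
      ring
    have e2 : ∫ u : ℝ, Real.exp (-(2 * σ) * u) • ((‖F (Real.exp (-u))‖ ^ 2 : ℝ) : ℂ) =
        ((∫ u, ‖gg F σ u‖ ^ 2 : ℝ) : ℂ) := by
      rw [← integral_complex_ofReal]
      refine integral_congr_ae ?_
      filter_upwards with u
      rw [gg_norm, real_smul, ← ofReal_mul]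
      congr 1
      rw [mul_pow, ← Real.exp_nat_mul]
      congr 2
      push_cast; ring
    rw [e1, e2] at h
    exact_mod_cast h
  have hpi : (0:ℝ) < 2 * Real.pi := by positivity
  have hFint' : Integrable (fun t : ℝ => ‖𝓕 (gg F σ) (t / (2 * Real.pi))‖ ^ 2) :=
    hFint.comp_div hpi.ne'
  simp_rw [mell_eq]
  refine ⟨hFint', ?_⟩
  rw [Measure.integral_comp_div (fun ξ => ‖𝓕 (gg F σ) ξ‖ ^ 2) (2 * Real.pi), abs_of_pos hpi,
          smul_eq_mul, hFeq, hR]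

/-- the summatory function -/
noncomputable def SF (f : ℕ → ℂ) (v : ℝ) : ℂ := ∑ n ∈ Finset.Icc 1 ⌊v⌋₊, f n

theorem SF_meas (f : ℕ → ℂ) : Measurable (SF f) := by
  unfold SF
  have h : Measurable (fun N : ℕ => ∑ n ∈ Finset.Icc 1 N, f n) := measurable_from_top
  exact h.comp Nat.measurable_floor

theorem SF_bd (f : ℕ → ℂ) {v Y : ℝ} (h : v ≤ Y) :
    ‖SF f v‖ ≤ ∑ n ∈ Finset.Icc 1 ⌊Y⌋₊, ‖f n‖ := by
  unfold SF
  refine (norm_sum_le _ _).trans ?_
  apply Finset.sum_le_sum_of_subset_of_nonneg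
  · exact Finset.Icc_subset_Icc_right (Nat.floor_mono h)
  · intro _ _ _; exact norm_nonneg _

/-- the summatory function, cut off to the window -/
noncomputable def FW (f : ℕ → ℂ) (Y Y' : ℝ) : ℝ → ℂ := (Ioc Y Y').indicator (SF f)

theorem FW_meas (f : ℕ → ℂ) (Y Y' : ℝ) : Measurable (FW f Y Y') :=
  (SF_meas f).indicator measurableSet_Ioc

theorem gg_meas (f : ℕ → ℂ) (Y Y' σ : ℝ) : Measurable (gg (FW f Y Y') σ) := by
  unfold gg
  apply Measurable.mul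
  · fun_prop
  · exact (FW_meas f Y Y').comp (by fun_prop)

theorem gg_FW_bd (f : ℕ → ℂ) {Y Y' : ℝ} (hY : 1 ≤ Y) (u : ℝ) :
    ‖gg (FW f Y Y') (-(1 / 2)) u‖ ≤ (Icc (-Real.log Y') 0).indicator
      (fun _ => ∑ n ∈ Finset.Icc 1 ⌊Y'⌋₊, ‖f n‖) u := by
  rw [gg_norm]
  by_cases hu : Real.exp (-u) ∈ Ioc Y Y'
  · have h1 : u ≤ 0 := by
      by_contra h
      push Not at h
      have : Real.exp (-u) < 1 := Real.exp_lt_one_iff.mpr (by linarith)
      linarith [hu.1]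
    have hY' : 0 < Y' := lt_of_lt_of_le (Real.exp_pos _) hu.2
    have h2 : -Real.log Y' ≤ u := by
      have := Real.log_le_log (Real.exp_pos _) hu.2
      rw [Real.log_exp] at this
      linarith
    rw [Set.indicator_of_mem (by exact ⟨h2, h1⟩)]
    unfold FW
    rw [Set.indicator_of_mem hu]
    have h3 : Real.exp (-(-(1 / 2)) * u) ≤ 1 := Real.exp_le_one_iff.mpr (by linarith)
    have h4 := SF_bd f hu.2
    have h5 := norm_nonneg (SF f (Real.exp (-u)))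
    calc _ ≤ 1 * ‖SF f (Real.exp (-u))‖ := by gcongr
      _ ≤ _ := by rw [one_mul]; exact h4
  · unfold FW
    rw [Set.indicator_of_notMem hu, norm_zero, mul_zero]
    apply Set.indicator_nonneg
    intro _ _
    exact Finset.sum_nonneg fun _ _ => norm_nonneg _

theorem gg_FW_int (f : ℕ → ℂ) {Y Y' : ℝ} (hY : 1 ≤ Y) :
    Integrable (gg (FW f Y Y') (-(1 / 2))) := by
  refine Integrable.mono' (g := (Icc (-Real.log Y') 0).indicator
      (fun _ => ∑ n ∈ Finset.Icc 1 ⌊Y'⌋₊, ‖f n‖)) ?_ (gg_meas f Y Y' _).aestronglyMeasurable ?_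
  · rw [integrable_indicator_iff measurableSet_Icc]
    exact integrableOn_const (by simp)
  · filter_upwards with u
    exact gg_FW_bd f hY u

theorem gg_FW_sq (f : ℕ → ℂ) {Y Y' : ℝ} (hY : 1 ≤ Y) :
    Integrable (fun u => ‖gg (FW f Y Y') (-(1 / 2)) u‖ ^ 2) := by
  have hM : 0 ≤ ∑ n ∈ Finset.Icc 1 ⌊Y'⌋₊, ‖f n‖ := Finset.sum_nonneg fun _ _ => norm_nonneg _
  refine Integrable.mono' (((gg_FW_int f hY (Y' := Y')).norm).const_mul
    (∑ n ∈ Finset.Icc 1 ⌊Y'⌋₊, ‖f n‖)) ((gg_meas f Y Y' _).norm.pow_const 2).aestronglyMeasurable ?_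
  filter_upwards with u
  rw [Real.norm_of_nonneg (by positivity), pow_two]
  apply mul_le_mul_of_nonneg_right _ (norm_nonneg _)
  refine (gg_FW_bd f hY u).trans ?_
  by_cases hu : u ∈ Icc (-Real.log Y') 0
  · rw [Set.indicator_of_mem hu]
  · rw [Set.indicator_of_notMem hu]; exact hM

/-- Abel summation -/
theorem abel (f : ℕ → ℂ) {Y Y' : ℝ} (hY : 1 ≤ Y) (hYY : Y ≤ Y') (s : ℂ) (hs : s ≠ 0) :
    ∑ n ∈ Finset.Ioc ⌊Y⌋₊ ⌊Y'⌋₊, f n * (n : ℂ) ^ (-s) =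
      (Y' : ℂ) ^ (-s) * SF f Y' - (Y : ℂ) ^ (-s) * SF f Y + s * mellin (FW f Y Y') (-s) := by
  set c : ℕ → ℂ := fun n => if n = 0 then 0 else f n with hc
  have hcs : ∀ N : ℕ, ∑ k ∈ Finset.Icc 0 N, c k = ∑ k ∈ Finset.Icc 1 N, f k := by
    intro N
    rw [← Finset.sum_subset (s₁ := Finset.Icc 1 N) (s₂ := Finset.Icc 0 N)]
    · refine Finset.sum_congr rfl fun k hk => ?_
      rw [Finset.mem_Icc] at hk
      simp only [hc]
      rw [if_neg (by omega)]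
    · intro k hk
      rw [Finset.mem_Icc] at hk ⊢
      omega
    · intro k hk hk'
      rw [Finset.mem_Icc] at hk hk'
      have : k = 0 := by omega
      simp [hc, this]
  have hderiv : ∀ t : ℝ, 0 < t → HasDerivAt (fun t : ℝ => (t : ℂ) ^ (-s)) (-s * (t : ℂ) ^ (-s - 1)) t := by
    intro t ht
    exact hasDerivAt_ofReal_cpow_const ht.ne' (neg_ne_zero.mpr hs)
  have h := sum_mul_eq_sub_sub_integral_mul (f := fun t : ℝ => (t : ℂ) ^ (-s)) c (a := Y) (b := Y')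
    (by linarith) hYY (fun t ht => (hderiv t (by linarith [ht.1])).differentiableAt) ?_
  · rw [hcs, hcs] at h
    have e1 : ∑ n ∈ Finset.Ioc ⌊Y⌋₊ ⌊Y'⌋₊, f n * (n : ℂ) ^ (-s) =
        ∑ k ∈ Finset.Ioc ⌊Y⌋₊ ⌊Y'⌋₊, ((k : ℝ) : ℂ) ^ (-s) * c k := by
      refine Finset.sum_congr rfl fun k hk => ?_
      rw [Finset.mem_Ioc] at hk
      simp only [hc]
      rw [if_neg (by omega), ofReal_natCast, mul_comm]
    rw [e1, h]
    have e2 : ∫ t in Ioc Y Y', deriv (fun t : ℝ => (t : ℂ) ^ (-s)) t * ∑ k ∈ Finset.Icc 0 ⌊t⌋₊, c k =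
        -s * mellin (FW f Y Y') (-s) := by
      unfold mellin
      rw [← integral_const_mul]
      have e3 : ∀ t : ℝ, -s * (t : ℂ) ^ (-s - 1) • FW f Y Y' t =
          (Ioc Y Y').indicator (fun t : ℝ => -s * (t : ℂ) ^ (-s - 1) * SF f t) t := by
        intro t
        unfold FW
        by_cases ht : t ∈ Ioc Y Y'
        · rw [Set.indicator_of_mem ht, Set.indicator_of_mem ht, smul_eq_mul]; ring
        · rw [Set.indicator_of_notMem ht, Set.indicator_of_notMem ht, smul_zero, mul_zero]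
      simp_rw [e3]
      rw [setIntegral_indicator measurableSet_Ioc]
      have e4 : Ioi (0 : ℝ) ∩ Ioc Y Y' = Ioc Y Y' := by
        apply inter_eq_self_of_subset_right
        intro t ht
        exact lt_trans (by linarith) ht.1
      rw [e4]
      refine setIntegral_congr_fun measurableSet_Ioc ?_
      intro t ht
      simp only
      rw [(hderiv t (by linarith [ht.1])).deriv, hcs]
      rfl
    rw [e2]
    unfold SF
    ring
  · have hc2 : ContinuousOn (fun t : ℝ => -s * (t : ℂ) ^ (-s - 1)) (Icc Y Y') := by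
      apply ContinuousOn.mul continuousOn_const
      intro t ht
      have ht0 : 0 < t := by linarith [ht.1]
      apply ContinuousAt.continuousWithinAt
      exact (continuousAt_ofReal_cpow_const t _ (Or.inr ht0.ne'))
    refine (hc2.integrableOn_Icc).congr_fun ?_ measurableSet_Icc
    intro t ht
    simp only
    rw [(hderiv t (by linarith [ht.1])).deriv]

theorem win : Pool.Agent.D0H44.MW.S_WIN := by
  refine ⟨6 * Real.pi, by positivity, fun f Y Y' hY hYY => ?_⟩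
  have hY' : 1 ≤ Y' := hY.trans hYY
  obtain ⟨hi, he⟩ := mell_L2' (gg_FW_int f hY (Y' := Y')) (gg_FW_sq f hY)
  set A := ‖SF f Y‖ ^ 2 / Y with hA
  set B := ‖SF f Y'‖ ^ 2 / Y' with hB
  have hA0 : 0 ≤ A := by positivity
  have hB0 : 0 ≤ B := by positivity
  have hi' : Integrable (fun u : ℝ => ‖mellin (FW f Y Y') (((-(1 / 2) : ℝ) : ℂ) + ((-u : ℝ) : ℂ) * I)‖ ^ 2) :=
    hi.comp_neg
  have he' : ∫ u : ℝ, ‖mellin (FW f Y Y') (((-(1 / 2) : ℝ) : ℂ) + ((-u : ℝ) : ℂ) * I)‖ ^ 2 =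
      2 * Real.pi * ∫ x in Ioi (0 : ℝ), ‖FW f Y Y' x‖ ^ 2 * x ^ (2 * (-(1 / 2)) - 1 : ℝ) := by
    rw [← he]
    exact integral_neg_eq_self (fun u : ℝ => ‖mellin (FW f Y Y') (((-(1 / 2) : ℝ) : ℂ) + (u : ℂ) * I)‖ ^ 2) volume
  have hR : ∫ x in Ioi (0 : ℝ), ‖FW f Y Y' x‖ ^ 2 * x ^ (2 * (-(1 / 2)) - 1 : ℝ) =
      ∫ v in Y..Y', ‖∑ n ∈ Finset.Icc 1 ⌊v⌋₊, f n‖ ^ 2 / v ^ 2 := by
    rw [intervalIntegral.integral_of_le hYY]
    have e3 : ∀ x : ℝ, ‖FW f Y Y' x‖ ^ 2 * x ^ (2 * (-(1 / 2)) - 1 : ℝ) =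
          (Ioc Y Y').indicator (fun x : ℝ => ‖SF f x‖ ^ 2 * x ^ (2 * (-(1 / 2)) - 1 : ℝ)) x := by
      intro t
      unfold FW
      by_cases ht : t ∈ Ioc Y Y'
      · rw [Set.indicator_of_mem ht, Set.indicator_of_mem ht]
      · rw [Set.indicator_of_notMem ht, Set.indicator_of_notMem ht, norm_zero]; simp
    simp_rw [e3]
    rw [setIntegral_indicator measurableSet_Ioc]
    have e4 : Ioi (0 : ℝ) ∩ Ioc Y Y' = Ioc Y Y' := by
      apply inter_eq_self_of_subset_right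
      intro t ht
      exact lt_trans (by linarith) ht.1
    rw [e4]
    refine setIntegral_congr_fun measurableSet_Ioc ?_
    intro t ht
    have ht0 : 0 < t := by linarith [ht.1]
    simp only
    rw [show (2 * (-(1 / 2)) - 1 : ℝ) = -(2 : ℕ) by norm_num, Real.rpow_neg ht0.le, Real.rpow_natCast,
      div_eq_mul_inv]
    rfl
  have hb : ∀ u : ℝ, ‖∑ n ∈ Finset.Ioc ⌊Y⌋₊ ⌊Y'⌋₊, f n * (n : ℂ) ^ (-(((1 / 2 : ℝ) : ℂ) + (u : ℂ) * I))‖ ^ 2 /
      (1 + u ^ 2) ≤ 3 * (A + B) * (1 + u ^ 2)⁻¹ +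
        3 * ‖mellin (FW f Y Y') (((-(1 / 2) : ℝ) : ℂ) + ((-u : ℝ) : ℂ) * I)‖ ^ 2 := by
    intro u
    set s : ℂ := ((1 / 2 : ℝ) : ℂ) + (u : ℂ) * I with hs
    have hsre : s.re = 1 / 2 := by simp [hs]
    have hsim : s.im = u := by simp [hs]
    have hs0 : s ≠ 0 := by
      intro h
      rw [h] at hsre
      simp at hsre
    have hs1 : ((-(1 / 2) : ℝ) : ℂ) + ((-u : ℝ) : ℂ) * I = -s := by
      rw [hs]; push_cast; ring
    rw [hs1, abel f hY hYY s hs0]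
    have hn : ∀ x : ℝ, 0 < x → ‖(x : ℂ) ^ (-s)‖ ^ 2 = 1 / x := by
      intro x hx
      rw [norm_cpow_eq_rpow_re_of_pos hx, neg_re, hsre, ← Real.rpow_natCast, ← Real.rpow_mul hx.le]
      norm_num
      rw [Real.rpow_neg_one]
    have hsn : ‖s‖ ^ 2 ≤ 1 + u ^ 2 := by
      rw [← normSq_eq_norm_sq, normSq_apply, hsre, hsim]
      nlinarith [sq_nonneg u]
    have h3 : ‖(Y' : ℂ) ^ (-s) * SF f Y' - (Y : ℂ) ^ (-s) * SF f Y + s * mellin (FW f Y Y') (-s)‖ ^ 2 ≤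
        3 * (B + A + (1 + u ^ 2) * ‖mellin (FW f Y Y') (-s)‖ ^ 2) := by
      have n1 : ‖(Y' : ℂ) ^ (-s) * SF f Y'‖ ^ 2 = B := by
        rw [norm_mul, mul_pow, hn Y' (by linarith), hB]; ring
      have n2 : ‖(Y : ℂ) ^ (-s) * SF f Y‖ ^ 2 = A := by
        rw [norm_mul, mul_pow, hn Y (by linarith), hA]; ring
      have n3 : ‖s * mellin (FW f Y Y') (-s)‖ ^ 2 ≤ (1 + u ^ 2) * ‖mellin (FW f Y Y') (-s)‖ ^ 2 := by
        rw [norm_mul, mul_pow]
        gcongr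
      have n4 : ‖(Y' : ℂ) ^ (-s) * SF f Y' - (Y : ℂ) ^ (-s) * SF f Y + s * mellin (FW f Y Y') (-s)‖ ≤
          ‖(Y' : ℂ) ^ (-s) * SF f Y'‖ + ‖(Y : ℂ) ^ (-s) * SF f Y‖ + ‖s * mellin (FW f Y Y') (-s)‖ :=
        (norm_add_le _ _).trans (by gcongr; exact norm_sub_le _ _)
      have n5 := pow_le_pow_left₀ (norm_nonneg _) n4 2
      refine n5.trans ?_
      nlinarith [sq_nonneg (‖(Y' : ℂ) ^ (-s) * SF f Y'‖ - ‖(Y : ℂ) ^ (-s) * SF f Y‖),
        sq_nonneg (‖(Y' : ℂ) ^ (-s) * SF f Y'‖ - ‖s * mellin (FW f Y Y') (-s)‖),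
        sq_nonneg (‖(Y : ℂ) ^ (-s) * SF f Y‖ - ‖s * mellin (FW f Y Y') (-s)‖)]
    have hu : 0 < 1 + u ^ 2 := by positivity
    rw [div_le_iff₀ hu]
    refine h3.trans (le_of_eq ?_)
    field_simp
    ring
  calc _ ≤ ∫ u : ℝ, (3 * (A + B) * (1 + u ^ 2)⁻¹ +
        3 * ‖mellin (FW f Y Y') (((-(1 / 2) : ℝ) : ℂ) + ((-u : ℝ) : ℂ) * I)‖ ^ 2) := by
        apply integral_mono_of_nonneg
        · filter_upwards with u
          simp only [Pi.zero_apply]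
          positivity
        · exact (integrable_inv_one_add_sq.const_mul _).add (hi'.const_mul 3)
        · filter_upwards with u
          exact hb u
    _ = 3 * (A + B) * Real.pi + 3 * (2 * Real.pi * ∫ v in Y..Y', ‖∑ n ∈ Finset.Icc 1 ⌊v⌋₊, f n‖ ^ 2 / v ^ 2) := by
        rw [integral_add (integrable_inv_one_add_sq.const_mul _) (hi'.const_mul 3), integral_const_mul,
          integral_const_mul, he', hR, integral_univ_inv_one_add_sq]
    _ ≤ _ := by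
        have h1 : 0 ≤ (A + B) * Real.pi := by positivity
        have h2 : ‖∑ n ∈ Finset.Icc 1 ⌊Y⌋₊, f n‖ ^ 2 / Y = A := rfl
        have h3 : ‖∑ n ∈ Finset.Icc 1 ⌊Y'⌋₊, f n‖ ^ 2 / Y' = B := rfl
        rw [h2, h3]
        nlinarith

end Pool.Agent.D0H13.MW
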